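import Pool.Agent.Helper69.FF.St

/-!
# Project FF (owner helper69), module MG: random choice of one element in each group
-/

set_option autoImplicit false

open scoped BigOperators

open FF DV

namespace Pool.Agent.Helper9.FF

theorem exp_le_aux {x : ℝ} (h0 : 0 ≤ x) (h1 : x ≤ 1) : Real.exp x ≤ 1 + 2 * x := by
  have h2 := convexOn_exp.2 (Set.mem_univ (0 : ℝ)) (Set.mem_univ (1 : ℝ))
    (by linarith : (0 : ℝ) ≤ 1 - x) h0 (by ring)
  have h3 := Real.exp_one_lt_d9
  simp only [smul_eq_mul, mul_zero, mul_one, zero_add, Real.exp_zero] at h2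
  nlinarith

theorem hMG : StMG := by
  intro J _ s B hB g t hg hsum
  by_contra hno
  push Not at hno
  have hB0 : (0 : ℝ) < B := by exact_mod_cast hB
  have h1 : ∀ κ : Fin s → Fin B, 1 ≤ ∑ j, Real.exp (-t j) * ∏ l, Real.exp (g j l (κ l)) := by
    intro κ
    obtain ⟨j, hj⟩ := hno κ
    have h2 : Real.exp (-t j) * ∏ l, Real.exp (g j l (κ l)) ≤
        ∑ j, Real.exp (-t j) * ∏ l, Real.exp (g j l (κ l)) :=
      Finset.single_le_sum (f := fun j => Real.exp (-t j) * ∏ l, Real.exp (g j l (κ l)))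
        (fun j _ => by positivity) (Finset.mem_univ j)
    refine le_trans ?_ h2
    rw [← Real.exp_sum, ← Real.exp_add]
    apply Real.one_le_exp
    linarith
  have h2 : ((B : ℝ)) ^ s ≤ ∑ κ : Fin s → Fin B, ∑ j, Real.exp (-t j) * ∏ l, Real.exp (g j l (κ l)) := by
    calc ((B : ℝ)) ^ s = ∑ _κ : Fin s → Fin B, (1 : ℝ) := by
          simp
      _ ≤ _ := Finset.sum_le_sum fun κ _ => h1 κ
  rw [Finset.sum_comm] at h2
  have h3 : ∀ j, ∑ κ : Fin s → Fin B, Real.exp (-t j) * ∏ l, Real.exp (g j l (κ l)) ≤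
      (B : ℝ) ^ s * Real.exp (-t j + 2 / (B : ℝ) * ∑ l, ∑ b, g j l b) := by
    intro j
    rw [← Finset.mul_sum]
    have h4 : ∑ κ : Fin s → Fin B, ∏ l, Real.exp (g j l (κ l)) = ∏ l, ∑ b, Real.exp (g j l b) := by
      rw [Finset.prod_univ_sum, Fintype.piFinset_univ]
    rw [h4]
    have h5 : ∏ l, ∑ b, Real.exp (g j l b) ≤
        ∏ l : Fin s, ((B : ℝ) * Real.exp (2 / (B : ℝ) * ∑ b, g j l b)) := by
      apply Finset.prod_le_prod
      · intro l _
        exact Finset.sum_nonneg fun b _ => (Real.exp_pos _).le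
      · intro l _
        have h6 : ∑ b, Real.exp (g j l b) ≤ ∑ b : Fin B, (1 + 2 * g j l b) :=
          Finset.sum_le_sum fun b _ => exp_le_aux (hg j l b).1 (hg j l b).2
        rw [Finset.sum_add_distrib, ← Finset.mul_sum] at h6
        simp only [Finset.sum_const, Finset.card_univ, Fintype.card_fin, nsmul_eq_mul, mul_one] at h6
        have h7 := Real.add_one_le_exp (2 / (B : ℝ) * ∑ b, g j l b)
        have h8 : (B : ℝ) * (2 / (B : ℝ) * ∑ b, g j l b + 1) ≤
            (B : ℝ) * Real.exp (2 / (B : ℝ) * ∑ b, g j l b) :=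
          mul_le_mul_of_nonneg_left h7 hB0.le
        have h9 : (B : ℝ) * (2 / (B : ℝ) * ∑ b, g j l b + 1) = B + 2 * ∑ b, g j l b := by
          field_simp
          ring
        linarith
    rw [Finset.prod_mul_distrib, Finset.prod_const, Finset.card_univ, Fintype.card_fin,
      ← Real.exp_sum, ← Finset.mul_sum] at h5
    calc Real.exp (-t j) * ∏ l, ∑ b, Real.exp (g j l b)
        ≤ Real.exp (-t j) * ((B : ℝ) ^ s * Real.exp (2 / (B : ℝ) * ∑ l, ∑ b, g j l b)) :=
          mul_le_mul_of_nonneg_left h5 (Real.exp_pos _).le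
      _ = _ := by
          rw [Real.exp_add]
          ring
  have h4 : ∑ j, ∑ κ : Fin s → Fin B, Real.exp (-t j) * ∏ l, Real.exp (g j l (κ l)) ≤
      (B : ℝ) ^ s * ∑ j, Real.exp (-t j + 2 / (B : ℝ) * ∑ l, ∑ b, g j l b) := by
    rw [Finset.mul_sum]
    exact Finset.sum_le_sum fun j _ => h3 j
  have h5 : (0 : ℝ) < (B : ℝ) ^ s := by positivity
  have h6 : (B : ℝ) ^ s * ∑ j, Real.exp (-t j + 2 / (B : ℝ) * ∑ l, ∑ b, g j l b) < (B : ℝ) ^ s * 1 :=
    mul_lt_mul_of_pos_left hsum h5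
  linarith

end Pool.Agent.Helper9.FF
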